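import Pool.Agent.W307.RS.Stm
import Pool.Agent.W605.RT.PAR4

/-!
# Project RS: parametrisation ordered by the minimal discriminant, `Z/2 x Z/4`
-/

set_option autoImplicit false

namespace Pool.Agent.W500.RS

open Finset Pool.Agent.W262.RK Pool.Agent.W307.RT Pool.Agent.W307.RS Pool.Agent.W605.RT
open WeierstrassCurve.Affine

theorem disc_id {A B a b g : ℤ} (hA : 3 * A = -(g ^ 4 * (a ^ 4 - a ^ 2 * b ^ 2 + b ^ 4)))
    (hB : 27 * B = g ^ 6 * ((a ^ 2 + b ^ 2) * (2 * a ^ 2 - b ^ 2) * (a ^ 2 - 2 * b ^ 2))) :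
    4 * A ^ 3 + 27 * B ^ 2 = -(g ^ 12 * (a ^ 2 * b ^ 2 * (a ^ 2 - b ^ 2)) ^ 2) := by
  have h : 27 * (4 * A ^ 3 + 27 * B ^ 2) =
      27 * -(g ^ 12 * (a ^ 2 * b ^ 2 * (a ^ 2 - b ^ 2)) ^ 2) := by
    have : 27 * (4 * A ^ 3 + 27 * B ^ 2) = 4 * (3 * A) ^ 3 + (27 * B) ^ 2 := by ring
    rw [this, hA, hB]
    ring
  linarith

theorem pard4_of (h : Pool.Agent.W307.RT.ISO) (h2 : Pool.Agent.W307.RS.MDL) :
    Pool.Agent.W307.RS.PARD 4 Pool.Agent.W307.RT.M4 Pool.Agent.W307.RT.N4 := by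
  refine ⟨6 ^ 12, FF, fun Z => ⟨?_, ?_⟩⟩
  · rintro c ⟨hD, hmin, hT, -⟩ c' ⟨hD', hmin', hT', -⟩ hcc
    have r := FF_rel (core hD hT)
    have r' := FF_rel (core hD' hT')
    change Rel c (FF c) at r
    change Rel c' (FF c') at r'
    rw [← hcc] at r'
    exact rel_unique r r' hmin hmin'
  · rintro c ⟨hD, hmin, hT, hZ⟩
    have r := FF_rel (core hD hT)
    change Rel c (FF c) at r
    set ab := FF c with hab
    clear_value ab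
    obtain ⟨A, B⟩ := c
    obtain ⟨a, b⟩ := ab
    obtain ⟨g, e, hg, hco, ha0, hb0, hne, he, hA, hB⟩ := r
    change a ≠ 0 at ha0
    change b ≠ 0 at hb0
    change a ^ 2 ≠ b ^ 2 at hne
    change 3 * e = g ^ 2 * (a ^ 2 + b ^ 2) at he
    change 3 * A = -(g ^ 4 * (a ^ 4 - a ^ 2 * b ^ 2 + b ^ 4)) at hA
    change 27 * B = g ^ 6 * ((a ^ 2 + b ^ 2) * (2 * a ^ 2 - b ^ 2) * (a ^ 2 - 2 * b ^ 2)) at hB
    refine ⟨hco, ?_, ?_, ?_, ?_, ?_⟩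
    · exact pow_ne_zero 2 ha0
    · exact pow_ne_zero 2 hb0
    · exact hne
    · have h3 := (h2 A B hD hmin).1
      change mD (Sh A B) ≤ Z at hZ
      change (a ^ 2 * b ^ 2 * (a ^ 2 - b ^ 2)).natAbs ^ 2 ≤ 6 ^ 12 * Z
      have h4 := disc_id hA hB
      have h5 : (16 * (4 * A ^ 3 + 27 * B ^ 2)).natAbs =
          16 * (g.natAbs ^ 12 * (a ^ 2 * b ^ 2 * (a ^ 2 - b ^ 2)).natAbs ^ 2) := by
        rw [h4, Int.natAbs_mul, Int.natAbs_neg, Int.natAbs_mul, Int.natAbs_pow, Int.natAbs_pow]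
        rfl
      have h6 : 1 ≤ g.natAbs ^ 12 := Nat.one_le_pow _ _ (Int.natAbs_pos.mpr hg.ne')
      have h7 : (a ^ 2 * b ^ 2 * (a ^ 2 - b ^ 2)).natAbs ^ 2 ≤
          g.natAbs ^ 12 * (a ^ 2 * b ^ 2 * (a ^ 2 - b ^ 2)).natAbs ^ 2 :=
        Nat.le_mul_of_pos_left _ h6
      have h8 : 6 ^ 12 * mD (Sh A B) ≤ 6 ^ 12 * Z := Nat.mul_le_mul_left _ hZ
      rw [h5] at h3
      generalize (a ^ 2 * b ^ 2 * (a ^ 2 - b ^ 2)).natAbs ^ 2 = u at *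
      generalize g.natAbs ^ 12 * u = w at *
      omega
    · have hgq : (g : ℚ) ≠ 0 := by exact_mod_cast hg.ne'
      have heq : (e : ℚ) = (g : ℚ) ^ 2 * ((a : ℚ) ^ 2 + (b : ℚ) ^ 2) / 3 := by
        have : (3 : ℚ) * e = (g : ℚ) ^ 2 * ((a : ℚ) ^ 2 + (b : ℚ) ^ 2) := by exact_mod_cast he
        linarith
      have hAq : (A : ℚ) = -((g : ℚ) ^ 4 * ((a : ℚ) ^ 4 - (a : ℚ) ^ 2 * (b : ℚ) ^ 2 + (b : ℚ) ^ 4)) / 3 := by
        have : (3 : ℚ) * A = -((g : ℚ) ^ 4 * ((a : ℚ) ^ 4 - (a : ℚ) ^ 2 * (b : ℚ) ^ 2 + (b : ℚ) ^ 4)) := by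
          exact_mod_cast hA
        linarith
      have hBq : (B : ℚ) = (g : ℚ) ^ 6 * (((a : ℚ) ^ 2 + (b : ℚ) ^ 2) * (2 * (a : ℚ) ^ 2 - (b : ℚ) ^ 2) *
          ((a : ℚ) ^ 2 - 2 * (b : ℚ) ^ 2)) / 27 := by
        have : (27 : ℚ) * B = (g : ℚ) ^ 6 * (((a : ℚ) ^ 2 + (b : ℚ) ^ 2) *
            (2 * (a : ℚ) ^ 2 - (b : ℚ) ^ 2) * ((a : ℚ) ^ 2 - 2 * (b : ℚ) ^ 2)) := by exact_mod_cast hB
        linarith
      obtain ⟨φ⟩ := h 0 A B e g hgq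
      have hW : (⟨0, ((0 : ℚ) + 3 * e) / (g : ℚ) ^ 2, 0,
          ((A : ℚ) + 2 * e * 0 + 3 * (e : ℚ) ^ 2) / (g : ℚ) ^ 4,
          ((B : ℚ) + e * A + (e : ℚ) ^ 2 * 0 + (e : ℚ) ^ 3) / (g : ℚ) ^ 6⟩ : WeierstrassCurve ℚ)
          = EAB (-(M4 a b)) (-(N4 a b)) := by
        unfold EAB M4 N4
        simp only [WeierstrassCurve.mk.injEq, true_and]
        refine ⟨?_, ?_, ?_⟩
        · rw [heq]; push_cast; field_simp; ring
        · rw [heq, hAq]; push_cast; field_simp; ring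
        · rw [heq, hAq, hBq]; field_simp; ring
      rw [hW] at φ
      change Module.finrank ℤ (Sh A B).toAffine.Point =
        Module.finrank ℤ (EAB (-(M4 a b)) (-(N4 a b))).toAffine.Point
      exact LinearEquiv.finrank_eq φ.toIntLinearEquiv

end Pool.Agent.W500.RS
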